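import Mathlib
import Pool.Agent.H922R2.K2

set_option autoImplicit false

open MvPolynomial

namespace Pool.Agent.H938R2.JC

variable {k : Type*} [Field k]

/-- The Jacobian determinant of a pair. -/
noncomputable def J (f g : MvPolynomial (Fin 2) k) : MvPolynomial (Fin 2) k :=
  pderiv 0 f * pderiv 1 g - pderiv 1 f * pderiv 0 g

/-- The exponent `(i, j)`. -/
noncomputable def e (i j : ℕ) : Fin 2 →₀ ℕ := Finsupp.single 0 i + Finsupp.single 1 j

@[simp] theorem e_zero (i j : ℕ) : e i j 0 = i := by simp [e]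
@[simp] theorem e_one (i j : ℕ) : e i j 1 = j := by simp [e]

theorem eq_e (m : Fin 2 →₀ ℕ) : m = e (m 0) (m 1) := by
  ext i; fin_cases i <;> simp

theorem e_inj {i j i' j' : ℕ} : e i j = e i' j' ↔ i = i' ∧ j = j' := by
  constructor
  · intro h
    exact ⟨by simpa using DFunLike.congr_fun h 0, by simpa using DFunLike.congr_fun h 1⟩
  · rintro ⟨rfl, rfl⟩; rfl

theorem ext_iff' {m n : Fin 2 →₀ ℕ} : m = n ↔ m 0 = n 0 ∧ m 1 = n 1 := by
  rw [eq_e m, eq_e n, e_inj]; simp

theorem coeff_X_mul_pderiv (i : Fin 2) (f : MvPolynomial (Fin 2) k) (m : Fin 2 →₀ ℕ) :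
    coeff m (X i * pderiv i f) = (m i : k) * coeff m f := by
  induction f using MvPolynomial.induction_on' with
  | monomial u a =>
    rw [X_mul_pderiv_monomial, nsmul_eq_mul, ← C_eq_coe_nat, coeff_C_mul, coeff_monomial]
    split_ifs with h
    · rw [h]
    · simp
  | add p q hp hq => rw [map_add, mul_add, coeff_add, coeff_add, hp, hq, mul_add]

theorem coeff_XXJ (f g : MvPolynomial (Fin 2) k) (m : Fin 2 →₀ ℕ) :
    coeff m (X 0 * X 1 * J f g) = ∑ x ∈ Finset.HasAntidiagonal.antidiagonal m,
      (((x.1 0 : ℕ) : k) * ((x.2 1 : ℕ) : k) - ((x.1 1 : ℕ) : k) * ((x.2 0 : ℕ) : k)) *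
        (coeff x.1 f * coeff x.2 g) := by
  have h : X 0 * X 1 * J f g = (X 0 * pderiv 0 f) * (X 1 * pderiv 1 g) -
      (X 1 * pderiv 1 f) * (X 0 * pderiv 0 g) := by
    unfold J; ring
  rw [h, coeff_sub, coeff_mul, coeff_mul, ← Finset.sum_sub_distrib]
  apply Finset.sum_congr rfl
  intro x _
  simp only [coeff_X_mul_pderiv]
  ring

theorem coeff_XX_C (c : k) (m : Fin 2 →₀ ℕ) :
    coeff m (X 0 * X 1 * C c : MvPolynomial (Fin 2) k) = if m = e 1 1 then c else 0 := by
  have h : (X 0 * X 1 * C c : MvPolynomial (Fin 2) k) = monomial (e 1 1) c := by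
    rw [e, X, X, monomial_mul, mul_comm, C_mul_monomial]; simp
  rw [h, coeff_monomial]
  simp only [eq_comm]

/-- The vertex lemma. -/
theorem vertex [CharZero k] {f g : MvPolynomial (Fin 2) k} {c : k} (hJ : J f g = C c)
    (a b : Fin 2 →₀ ℕ) (hab : ∀ a' b', coeff a' f ≠ 0 → coeff b' g ≠ 0 → a' + b' = a + b →
      a' = a ∧ b' = b) (ha : coeff a f ≠ 0) (hb : coeff b g ≠ 0) (hne : a + b ≠ e 1 1) :
    a 0 * b 1 = a 1 * b 0 := by
  have h1 := coeff_XXJ f g (a + b)
  rw [hJ, coeff_XX_C, if_neg hne, Finset.sum_eq_single (a, b)] at h1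
  · have h2 : (((a 0 : ℕ) : k) * ((b 1 : ℕ) : k) - ((a 1 : ℕ) : k) * ((b 0 : ℕ) : k)) = 0 := by
      rcases mul_eq_zero.1 h1.symm with h | h
      · exact h
      · exact absurd h (mul_ne_zero ha hb)
    have h3 := sub_eq_zero.1 h2
    exact_mod_cast h3
  · rintro ⟨a', b'⟩ hx hne'
    rw [Finset.HasAntidiagonal.mem_antidiagonal] at hx
    by_cases h1' : coeff a' f = 0
    · simp [h1']
    by_cases h2' : coeff b' g = 0
    · simp [h2']
    obtain ⟨h3, h4⟩ := hab a' b' h1' h2' hx
    exact absurd (by rw [h3, h4]) hne'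
  · intro h
    rw [Finset.HasAntidiagonal.mem_antidiagonal] at h
    exact absurd rfl h

/-- Key lemma in normalized form. -/
theorem core [CharZero k] {f g : MvPolynomial (Fin 2) k} {c : k} (hJ : J f g = C c)
    (hf1 : coeff (e 1 0) f ≠ 0) (hg1 : coeff (e 0 1) g ≠ 0)
    (hf : ∀ i j, coeff (e i j) f ≠ 0 → (i = 1 ∧ j = 0) ∨ 1 ≤ j)
    (hg : ∀ i j, coeff (e i j) g ≠ 0 → (i = 0 ∧ j = 1) ∨ 2 ≤ j) :
    (∀ i j, coeff (e i j) f ≠ 0 → (i = 1 ∧ j = 0) ∨ i = 0) ∧
    (∀ i j, coeff (e i j) g ≠ 0 → i = 0 ∧ j = 1) := by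
  classical
  -- the set of slopes
  set Tf : Finset (ℕ × ℕ) := (f.support.filter fun m => 2 ≤ m 0).image fun m => (m 0 - 1, m 1) with hTf
  set Tg : Finset (ℕ × ℕ) := (g.support.filter fun m => 1 ≤ m 0).image fun m => (m 0, m 1 - 1) with hTg
  have hT : Tf ∪ Tg = ∅ := by
    by_contra hne
    have hne' : (Tf ∪ Tg).Nonempty := Finset.nonempty_iff_ne_empty.2 hne
    obtain ⟨⟨p, q⟩, hpq, hmax⟩ := Finset.exists_max_image (Tf ∪ Tg) (fun x => (x.1 : ℚ) / x.2) hne'
    have hpos : ∀ x ∈ Tf ∪ Tg, 1 ≤ x.1 ∧ 1 ≤ x.2 := by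
      intro x hx
      rw [Finset.mem_union] at hx
      rcases hx with hx | hx
      · rw [hTf, Finset.mem_image] at hx
        obtain ⟨m, hm, rfl⟩ := hx
        rw [Finset.mem_filter, mem_support_iff] at hm
        have := hf (m 0) (m 1) (by rw [← eq_e]; exact hm.1)
        simp only
        omega
      · rw [hTg, Finset.mem_image] at hx
        obtain ⟨m, hm, rfl⟩ := hx
        rw [Finset.mem_filter, mem_support_iff] at hm
        have := hg (m 0) (m 1) (by rw [← eq_e]; exact hm.1)
        simp only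
        omega
    obtain ⟨hp, hq⟩ := hpos _ hpq
    simp only at hp hq
    have hmax' : ∀ x ∈ Tf ∪ Tg, q * x.1 ≤ p * x.2 := by
      intro x hx
      have h1 := hmax x hx
      obtain ⟨_, hx2⟩ := hpos x hx
      simp only at h1
      rw [div_le_div_iff₀ (by exact_mod_cast hx2) (by exact_mod_cast hq)] at h1
      have h2 : x.1 * q ≤ p * x.2 := by exact_mod_cast h1
      rw [mul_comm q]; exact h2
    have hF : ∀ m, coeff m f ≠ 0 → q * m 0 ≤ p * m 1 + q := by
      intro m hm
      by_cases h2 : 2 ≤ m 0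
      · have h3 := hmax' (m 0 - 1, m 1) (by
          rw [Finset.mem_union, hTf]
          exact Or.inl (Finset.mem_image.2 ⟨m, by rw [Finset.mem_filter, mem_support_iff]; exact ⟨hm, h2⟩, rfl⟩))
        simp only at h3
        have h4 : m 0 = (m 0 - 1) + 1 := by omega
        rw [h4, mul_add, mul_one]; omega
      · have : q * m 0 ≤ q * 1 := Nat.mul_le_mul_left _ (by omega)
        omega
    have hG : ∀ m, coeff m g ≠ 0 → q * m 0 + p ≤ p * m 1 := by
      intro m hm
      have h0 := hg (m 0) (m 1) (by rw [← eq_e]; exact hm)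
      have h5 : p * m 1 = p * (m 1 - 1) + p := by
        have h4 : m 1 = (m 1 - 1) + 1 := by omega
        conv_lhs => rw [h4]
        rw [mul_add, mul_one]
      by_cases h2 : 1 ≤ m 0
      · have h3 := hmax' (m 0, m 1 - 1) (by
          rw [Finset.mem_union, hTg]
          exact Or.inr (Finset.mem_image.2 ⟨m, by rw [Finset.mem_filter, mem_support_iff]; exact ⟨hm, h2⟩, rfl⟩))
        simp only at h3
        omega
      · have : m 0 = 0 := by omega
        rw [this, h5]; omega
    -- extreme points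
    obtain ⟨a, ha, hamax⟩ := Finset.exists_max_image
      (f.support.filter fun m => q * m 0 = p * m 1 + q) (fun m => m 0)
      ⟨e 1 0, by rw [Finset.mem_filter, mem_support_iff]; exact ⟨hf1, by simp⟩⟩
    obtain ⟨b, hb, hbmax⟩ := Finset.exists_max_image
      (g.support.filter fun m => q * m 0 + p = p * m 1) (fun m => m 0)
      ⟨e 0 1, by rw [Finset.mem_filter, mem_support_iff]; exact ⟨hg1, by simp⟩⟩
    rw [Finset.mem_filter, mem_support_iff] at ha hb
    have ha1 : 1 ≤ a 0 := by
      have := hamax (e 1 0) (by rw [Finset.mem_filter, mem_support_iff]; exact ⟨hf1, by simp⟩)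
      simpa using this
    have hsum : 2 ≤ a 0 + b 0 := by
      rw [Finset.mem_union] at hpq
      rcases hpq with hx | hx
      · rw [hTf, Finset.mem_image] at hx
        obtain ⟨m, hm, hmpq⟩ := hx
        rw [Finset.mem_filter, mem_support_iff] at hm
        have h1 := hamax m (by
          rw [Finset.mem_filter, mem_support_iff]
          refine ⟨hm.1, ?_⟩
          have h2 : m 0 - 1 = p := congrArg Prod.fst hmpq
          have h3 : m 1 = q := congrArg Prod.snd hmpq
          rw [h3, show m 0 = p + 1 by omega]; ring)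
        omega
      · rw [hTg, Finset.mem_image] at hx
        obtain ⟨m, hm, hmpq⟩ := hx
        rw [Finset.mem_filter, mem_support_iff] at hm
        have h0 := hg (m 0) (m 1) (by rw [← eq_e]; exact hm.1)
        have h1 := hbmax m (by
          rw [Finset.mem_filter, mem_support_iff]
          refine ⟨hm.1, ?_⟩
          have h2 : m 0 = p := congrArg Prod.fst hmpq
          have h3 : m 1 - 1 = q := congrArg Prod.snd hmpq
          rw [h2, show m 1 = q + 1 by omega]; ring)
        omega
    have hv := vertex hJ a b (by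
      intro a' b' ha' hb' hs
      have h1 := hF a' ha'
      have h2 := hG b' hb'
      have hs0 : a' 0 + b' 0 = a 0 + b 0 := by simpa using DFunLike.congr_fun hs 0
      have hs1 : a' 1 + b' 1 = a 1 + b 1 := by simpa using DFunLike.congr_fun hs 1
      have hq0 : q * a' 0 + q * b' 0 = q * a 0 + q * b 0 := by rw [← mul_add, hs0, mul_add]
      have hp1 : p * a' 1 + p * b' 1 = p * a 1 + p * b 1 := by rw [← mul_add, hs1, mul_add]
      have h3 : q * a' 0 = p * a' 1 + q := by omega
      have h4 : q * b' 0 + p = p * b' 1 := by omega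
      have h5 := hamax a' (by rw [Finset.mem_filter, mem_support_iff]; exact ⟨ha', h3⟩)
      have h6 := hbmax b' (by rw [Finset.mem_filter, mem_support_iff]; exact ⟨hb', h4⟩)
      have h7 : a' 0 = a 0 := by omega
      have h8 : b' 0 = b 0 := by omega
      have h9 : a' 1 = a 1 := by
        have : p * a' 1 = p * a 1 := by rw [h7] at h3; omega
        exact Nat.eq_of_mul_eq_mul_left hp this
      have h10 : b' 1 = b 1 := by omega
      exact ⟨ext_iff'.2 ⟨h7, h9⟩, ext_iff'.2 ⟨h8, h10⟩⟩) ha.1 hb.1 (by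
      intro h
      have : a 0 + b 0 = 1 := by simpa using DFunLike.congr_fun h 0
      omega)
    have h1 := ha.2
    have h2 := hb.2
    have h3 : a 0 * (p * b 1) = (p * a 1) * b 0 := by
      calc a 0 * (p * b 1) = p * (a 0 * b 1) := by ring
        _ = p * (a 1 * b 0) := by rw [hv]
        _ = _ := by ring
    rw [← h2] at h3
    have h4 : p * a 1 * b 0 + q * b 0 = q * a 0 * b 0 := by rw [h1]; ring
    nlinarith
  have hTf0 : Tf = ∅ := Finset.subset_empty.1 (hT ▸ Finset.subset_union_left)
  have hTg0 : Tg = ∅ := Finset.subset_empty.1 (hT ▸ Finset.subset_union_right)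
  have hf2 : ∀ m, coeff m f ≠ 0 → m 0 ≤ 1 := by
    intro m hm
    by_contra h
    have : (m 0 - 1, m 1) ∈ Tf := by
      rw [hTf, Finset.mem_image]
      exact ⟨m, by rw [Finset.mem_filter, mem_support_iff]; exact ⟨hm, by omega⟩, rfl⟩
    rw [hTf0] at this
    simp at this
  have hg2 : ∀ m, coeff m g ≠ 0 → m 0 = 0 := by
    intro m hm
    by_contra h
    have : (m 0, m 1 - 1) ∈ Tg := by
      rw [hTg, Finset.mem_image]
      exact ⟨m, by rw [Finset.mem_filter, mem_support_iff]; exact ⟨hm, by omega⟩, rfl⟩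
    rw [hTg0] at this
    simp at this
  obtain ⟨a, ha, hamax⟩ := Finset.exists_max_image
      (f.support.filter fun m => m 0 = 1) (fun m => m 1)
      ⟨e 1 0, by rw [Finset.mem_filter, mem_support_iff]; exact ⟨hf1, by simp⟩⟩
  obtain ⟨b, hb, hbmax⟩ := Finset.exists_max_image
      (g.support) (fun m => m 1)
      ⟨e 0 1, by rw [mem_support_iff]; exact hg1⟩
  rw [Finset.mem_filter, mem_support_iff] at ha
  rw [mem_support_iff] at hb
  have hb1 : 1 ≤ b 1 := by
    have := hbmax (e 0 1) (by rw [mem_support_iff]; exact hg1)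
    simpa using this
  have hb0 := hg2 b hb
  have key : a + b = e 1 1 := by
    by_contra hne
    have hv := vertex hJ a b (by
      intro a' b' ha' hb' hs
      have hs0 : a' 0 + b' 0 = a 0 + b 0 := by simpa using DFunLike.congr_fun hs 0
      have hs1 : a' 1 + b' 1 = a 1 + b 1 := by simpa using DFunLike.congr_fun hs 1
      have h1 := hg2 b' hb'
      have h2 : a' 0 = 1 := by omega
      have h5 := hamax a' (by rw [Finset.mem_filter, mem_support_iff]; exact ⟨ha', h2⟩)
      have h6 := hbmax b' (by rw [mem_support_iff]; exact hb')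
      exact ⟨ext_iff'.2 ⟨by omega, by omega⟩, ext_iff'.2 ⟨by omega, by omega⟩⟩) ha.1 hb hne
    rw [hb0, ha.2] at hv
    omega
  have hk1 : a 1 + b 1 = 1 := by simpa using DFunLike.congr_fun key 1
  constructor
  · intro i j hij
    have h1 := hf2 _ hij
    simp only [e_zero] at h1
    by_cases hi : i = 0
    · exact Or.inr hi
    · left
      have hi1 : i = 1 := by omega
      have := hamax (e i j) (by
        rw [Finset.mem_filter, mem_support_iff]; exact ⟨hij, by simpa using hi1⟩)
      simp only [e_one] at this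
      omega
  · intro i j hij
    have h1 := hg2 _ hij
    simp only [e_zero] at h1
    have h2 := hbmax (e i j) (by rw [mem_support_iff]; exact hij)
    simp only [e_one] at h2
    have h3 := hg i j hij
    omega

end Pool.Agent.H938R2.JC
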