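import Mathlib
import Pool.Agent.H938R2.JC.Base

set_option autoImplicit false

open MvPolynomial

namespace Pool.Agent.H938R2.JC

variable {k : Type*} [Field k]

/-- The pair generates the polynomial ring. -/
def Good (f g : MvPolynomial (Fin 2) k) : Prop := Algebra.adjoin k {f, g} = ⊤

theorem Good.symm {f g : MvPolynomial (Fin 2) k} (h : Good f g) : Good g f := by
  unfold Good at *; rwa [Set.pair_comm]

theorem Good.of_mem {f g f' g' : MvPolynomial (Fin 2) k} (h : Good f' g')
    (hf : f' ∈ Algebra.adjoin k {f, g}) (hg : g' ∈ Algebra.adjoin k {f, g}) : Good f g := by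
  unfold Good at *
  rw [eq_top_iff, ← h]
  apply Algebra.adjoin_le
  rintro x (rfl | rfl)
  · exact hf
  · exact hg

theorem Good.of_equiv {f g : MvPolynomial (Fin 2) k}
    (σ : MvPolynomial (Fin 2) k ≃ₐ[k] MvPolynomial (Fin 2) k) (h : Good (σ f) (σ g)) :
    Good f g := by
  unfold Good at *
  rw [eq_top_iff]
  intro x _
  have h1 : σ x ∈ Algebra.adjoin k {σ f, σ g} := by rw [h]; trivial
  have h2 : Algebra.adjoin k {σ f, σ g} = (Algebra.adjoin k {f, g}).map (σ : _ →ₐ[k] _) := by
    rw [AlgHom.map_adjoin, Set.image_pair]; rfl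
  rw [h2, Subalgebra.mem_map] at h1
  obtain ⟨y, hy, hxy⟩ := h1
  have : y = x := σ.injective hxy
  rwa [← this]

theorem good_of_mem {f g : MvPolynomial (Fin 2) k} (h0 : X 0 ∈ Algebra.adjoin k {f, g})
    (h1 : X 1 ∈ Algebra.adjoin k {f, g}) : Good f g := by
  unfold Good
  rw [eq_top_iff, ← MvPolynomial.adjoin_range_X]
  apply Algebra.adjoin_le
  rintro _ ⟨i, rfl⟩
  fin_cases i
  · exact h0
  · exact h1

/-- Chain rule. -/
theorem J_aeval (u : Fin 2 → MvPolynomial (Fin 2) k) (f g : MvPolynomial (Fin 2) k) :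
    J (aeval u f) (aeval u g) = aeval u (J f g) * J (u 0) (u 1) := by
  unfold J
  rw [H922R2.deriv_aeval (pderiv 0) u f, H922R2.deriv_aeval (pderiv 1) u g,
    H922R2.deriv_aeval (pderiv 1) u f, H922R2.deriv_aeval (pderiv 0) u g]
  simp only [Fin.sum_univ_two, map_sub, map_mul]
  ring

/-- Restriction to the line `y = 0`. -/
noncomputable def ev : MvPolynomial (Fin 2) k →ₐ[k] Polynomial k :=
  aeval ![Polynomial.X, 0]

theorem ev_coeff (h : MvPolynomial (Fin 2) k) (i : ℕ) : (ev h).coeff i = coeff (e i 0) h := by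
  induction h using MvPolynomial.induction_on' with
  | monomial u a =>
    rw [ev, aeval_monomial, Finsupp.prod_fintype _ _ (by simp), Fin.prod_univ_two]
    simp only [Matrix.cons_val_zero, Matrix.cons_val_one]
    rw [coeff_monomial, Polynomial.algebraMap_eq]
    by_cases h1 : u 1 = 0
    · rw [h1, pow_zero, mul_one, Polynomial.coeff_C_mul, Polynomial.coeff_X_pow]
      by_cases h0 : i = u 0
      · rw [if_pos h0, if_pos (ext_iff'.2 ⟨by simp [h0], by simp [h1]⟩), mul_one]
      · rw [if_neg h0, if_neg, mul_zero]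
        intro h; apply h0; rw [h]; simp
    · rw [zero_pow h1, mul_zero, mul_zero, Polynomial.coeff_zero, if_neg]
      intro h; apply h1; rw [h]; simp
  | add p q hp hq => rw [map_add, Polynomial.coeff_add, hp, hq, coeff_add]

theorem ev_deriv (h : MvPolynomial (Fin 2) k) : ev (pderiv 0 h) = Polynomial.derivative (ev h) := by
  have h1 := H922R2.deriv_aeval (k := k) (Polynomial.derivative' : Derivation k (Polynomial k) (Polynomial k))
    ![Polynomial.X, 0] h
  rw [Fin.sum_univ_two] at h1
  simp only [Polynomial.derivative'_apply, Matrix.cons_val_zero, Matrix.cons_val_one,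
    Polynomial.derivative_X, Polynomial.derivative_zero, mul_one, mul_zero, add_zero] at h1
  exact h1.symm

theorem ev_J (f g : MvPolynomial (Fin 2) k) : ev (J f g) =
    Polynomial.derivative (ev f) * ev (pderiv 1 g) - ev (pderiv 1 f) * Polynomial.derivative (ev g) := by
  unfold J
  rw [map_sub, map_mul, map_mul, ev_deriv, ev_deriv]

theorem J_swap (f g : MvPolynomial (Fin 2) k) : J g f = - J f g := by unfold J; ring

theorem J_poly (f g : MvPolynomial (Fin 2) k) (P : Polynomial k) :
    J f (g - Polynomial.aeval f P) = J f g := by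
  unfold J
  rw [map_sub, map_sub, Derivation.map_aeval, Derivation.map_aeval]
  simp only [smul_eq_mul]
  ring

theorem J_C_mul (f g : MvPolynomial (Fin 2) k) (a b : k) :
    J (C a * (f - C b)) g = C a * J f g := by
  unfold J
  simp only [Derivation.leibniz, map_sub, pderiv_C, smul_eq_mul, mul_zero, add_zero, sub_zero]
  ring

theorem mem_adjoin_X1 (b : MvPolynomial (Fin 2) k) (hb : ∀ i j, coeff (e i j) b ≠ 0 → i = 0)
    (S : Subalgebra k (MvPolynomial (Fin 2) k)) (hS : X 1 ∈ S) : b ∈ S := by
  rw [b.as_sum]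
  apply Subalgebra.sum_mem
  intro m hm
  rw [mem_support_iff] at hm
  have h0 : m 0 = 0 := hb (m 0) (m 1) (by rw [← eq_e]; exact hm)
  have h1 : (monomial m) (coeff m b) = C (coeff m b) * X 1 ^ (m 1) := by
    rw [C_mul_X_pow_eq_monomial]
    exact congrArg (fun u => monomial u (coeff m b)) (ext_iff'.2 ⟨by simp [h0], by simp⟩)
  rw [h1]
  exact S.mul_mem (S.algebraMap_mem _) (S.pow_mem hS _)

variable [CharZero k]

theorem L1 {f g : MvPolynomial (Fin 2) k} {c : k} (hJ : J f g = C c) (hc : c ≠ 0) (α β : k)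
    (hα : α ≠ 0) (hf : ev f = Polynomial.C β + Polynomial.C α * Polynomial.X) : Good f g := by
  set f' := C α⁻¹ * (f - C β) with hf'
  set P : Polynomial k := (ev g).comp (Polynomial.C α⁻¹ * (Polynomial.X - Polynomial.C β)) with hP
  set g' := g - Polynomial.aeval f P with hg'
  have hJ' : J f' g' = C (α⁻¹ * c) := by rw [hf', J_C_mul, hg', J_poly, hJ, C_mul]
  have evf' : ev f' = Polynomial.X := by
    rw [hf', map_mul, map_sub, hf]
    have h1 : ∀ r : k, ev (C r) = Polynomial.C r := by intro r; simp [ev]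
    rw [h1, h1, add_sub_cancel_left, ← mul_assoc, ← Polynomial.C_mul, inv_mul_cancel₀ hα,
      Polynomial.C_1, one_mul]
  have evg' : ev g' = 0 := by
    have h1 : ev (Polynomial.aeval f P) = P.comp (ev f) := by
      rw [← Polynomial.aeval_algHom_apply, Polynomial.comp_eq_aeval]
    rw [hg', map_sub, h1, hP, Polynomial.comp_assoc, hf]
    have h2 : (Polynomial.C α⁻¹ * (Polynomial.X - Polynomial.C β)).comp
        (Polynomial.C β + Polynomial.C α * Polynomial.X) = Polynomial.X := by
      simp only [Polynomial.mul_comp, Polynomial.sub_comp, Polynomial.C_comp, Polynomial.X_comp]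
      rw [add_sub_cancel_left, ← mul_assoc, ← Polynomial.C_mul, inv_mul_cancel₀ hα,
        Polynomial.C_1, one_mul]
    rw [h2, Polynomial.comp_X, sub_self]
  have evg1 : ev (pderiv 1 g') = Polynomial.C (α⁻¹ * c) := by
    have h1 := congrArg ev hJ'
    rw [ev_J, evf', evg', Polynomial.derivative_X,
      Polynomial.derivative_zero, one_mul, mul_zero, sub_zero] at h1
    rw [h1]; simp [ev]
  have hg'1 : ∀ i, coeff (e i 1) g' = if i = 0 then α⁻¹ * c else 0 := by
    intro i
    have h1 := ev_coeff (pderiv 1 g') i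
    rw [evg1, Polynomial.coeff_C, coeff_pderiv] at h1
    have h2 : e i 0 + Finsupp.single 1 1 = e i 1 := by simp [e]
    rw [h2] at h1
    simp only [e_one, Nat.cast_zero, zero_add, mul_one] at h1
    exact h1.symm
  have hf10 : coeff (e 1 0) f' ≠ 0 := by
    rw [← ev_coeff, evf']; simp
  have hg01 : coeff (e 0 1) g' ≠ 0 := by
    rw [hg'1, if_pos rfl]; exact mul_ne_zero (inv_ne_zero hα) hc
  have hcf := core hJ' hf10 hg01 (by
    intro i j hij
    by_cases hj : j = 0
    · subst hj
      rw [← ev_coeff, evf', Polynomial.coeff_X] at hij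
      left
      refine ⟨?_, rfl⟩
      by_contra h
      exact hij (if_neg (fun h' => h h'.symm))
    · right; omega) (by
    intro i j hij
    by_cases hj : j = 0
    · subst hj
      rw [← ev_coeff, evg', Polynomial.coeff_zero] at hij
      exact absurd rfl hij
    by_cases hj1 : j = 1
    · subst hj1
      rw [hg'1] at hij
      left
      refine ⟨?_, rfl⟩
      by_contra h
      exact hij (if_neg h)
    · right; omega)
  obtain ⟨h1, h2⟩ := hcf
  have hfm : f' ∈ Algebra.adjoin k {f, g} := by
    have hfa : f ∈ Algebra.adjoin k {f, g} := Algebra.subset_adjoin (by simp)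
    rw [hf']
    exact Subalgebra.mul_mem _ (Subalgebra.algebraMap_mem _ _)
      (Subalgebra.sub_mem _ hfa (Subalgebra.algebraMap_mem _ _))
  have hgm : g' ∈ Algebra.adjoin k {f, g} := by
    have hfa : f ∈ Algebra.adjoin k {f, g} := Algebra.subset_adjoin (by simp)
    have hga : g ∈ Algebra.adjoin k {f, g} := Algebra.subset_adjoin (by simp)
    rw [hg']
    apply Subalgebra.sub_mem _ hga
    exact Polynomial.aeval_mem_adjoin_singleton k f |> fun h =>
      Algebra.adjoin_mono (by simp) h
  apply Good.of_mem _ hfm hgm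
  have hX1 : X 1 ∈ Algebra.adjoin k {f', g'} := by
    have h3 : g' = C (α⁻¹ * c) * X 1 := by
      ext m
      have h5 : (C (α⁻¹ * c) * X 1 : MvPolynomial (Fin 2) k) = monomial (e 0 1) (α⁻¹ * c) := by
        rw [X, C_mul_monomial]; simp [e]
      rw [h5, coeff_monomial]
      split_ifs with hm
      · rw [← hm, hg'1, if_pos rfl]
      · by_contra hne
        have := h2 (m 0) (m 1) (by rw [← eq_e]; exact hne)
        apply hm
        rw [eq_e m, this.1, this.2]
    have h4 : (X 1 : MvPolynomial (Fin 2) k) = C (α⁻¹ * c)⁻¹ * g' := by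
      rw [h3, ← mul_assoc, ← C_mul, inv_mul_cancel₀ (mul_ne_zero (inv_ne_zero hα) hc), C_1, one_mul]
    rw [h4]
    exact Subalgebra.mul_mem _ (Subalgebra.algebraMap_mem _ _) (Algebra.subset_adjoin (by simp))
  have hX0 : X 0 ∈ Algebra.adjoin k {f', g'} := by
    have h3 : (X 0 : MvPolynomial (Fin 2) k) = f' - (f' - X 0) := by ring
    rw [h3]
    apply Subalgebra.sub_mem _ (Algebra.subset_adjoin (by simp))
    apply mem_adjoin_X1 _ _ _ hX1
    intro i j hij
    by_contra hi
    apply hij
    rw [coeff_sub]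
    have h5 : (X 0 : MvPolynomial (Fin 2) k) = monomial (e 1 0) 1 := by rw [X]; simp [e]
    rw [h5, coeff_monomial]
    by_cases hij' : i = 1 ∧ j = 0
    · rw [hij'.1, hij'.2, if_pos rfl, ← ev_coeff, evf']; simp
    · rw [if_neg]
      · by_contra hne
        have := h1 i j (by intro h; apply hne; rw [h, sub_zero])
        rcases this with h | h
        · exact hij' h
        · exact hi h
      · intro h
        rw [e_inj] at h
        exact hij' ⟨h.1.symm, h.2.symm⟩
  exact good_of_mem hX0 hX1

/-- If one component of a Jacobian pair restricts to the line `y = 0` with degree at most one,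
then the pair generates the polynomial ring. -/
theorem line {f g : MvPolynomial (Fin 2) k} {c : k} (hJ : J f g = C c) (hc : c ≠ 0)
    (hf : ∀ i, 2 ≤ i → coeff (e i 0) f = 0) : Good f g := by
  have hev : ev f = Polynomial.C ((ev f).coeff 0) + Polynomial.C ((ev f).coeff 1) * Polynomial.X := by
    ext i
    rw [Polynomial.coeff_add, Polynomial.coeff_C, Polynomial.coeff_C_mul, Polynomial.coeff_X]
    rcases i with _ | _ | i
    · simp
    · simp
    · rw [ev_coeff, hf _ (by omega)]
      simp
  by_cases h1 : (ev f).coeff 1 = 0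
  · have h2 : Polynomial.derivative (ev f) = 0 := by
      rw [hev, h1]; simp
    have h3 := congrArg ev hJ
    rw [ev_J, h2, zero_mul, zero_sub] at h3
    have h4 : ev (C c : MvPolynomial (Fin 2) k) = Polynomial.C c := by simp [ev]
    rw [h4] at h3
    have h5 : IsUnit (Polynomial.derivative (ev g)) := by
      have h6 : IsUnit (ev (pderiv 1 f) * Polynomial.derivative (ev g)) := by
        have h7 : ev (pderiv 1 f) * Polynomial.derivative (ev g) = - Polynomial.C c := by
          rw [← h3, neg_neg]
        rw [h7, IsUnit.neg_iff, Polynomial.isUnit_C, isUnit_iff_ne_zero]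
        exact hc
      exact isUnit_of_mul_isUnit_right h6
    obtain ⟨d, hd, hd2⟩ := Polynomial.isUnit_iff.1 h5
    have hd0 : d ≠ 0 := hd.ne_zero
    have h8 : ev g = Polynomial.C ((ev g).coeff 0) + Polynomial.C d * Polynomial.X := by
      have h9 : Polynomial.derivative (ev g - Polynomial.C d * Polynomial.X) = 0 := by
        rw [map_sub, ← hd2]; simp
      have h10 := Polynomial.eq_C_of_derivative_eq_zero h9
      have h11 : ev g = Polynomial.C ((ev g - Polynomial.C d * Polynomial.X).coeff 0) +
          Polynomial.C d * Polynomial.X := by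
        rw [← h10]; ring
      conv_lhs => rw [h11]
      simp
    have hJ2 : J g f = C (-c) := by rw [J_swap, hJ, C_neg]
    exact (L1 hJ2 (neg_ne_zero.2 hc) d _ hd0 h8).symm
  · exact L1 hJ hc _ _ h1 hev

/-- The swap of the two variables. -/
noncomputable def sw : MvPolynomial (Fin 2) k ≃ₐ[k] MvPolynomial (Fin 2) k :=
  renameEquiv k (Equiv.swap 0 1)

omit [CharZero k] in
theorem coeff_sw (f : MvPolynomial (Fin 2) k) (i j : ℕ) : coeff (e i j) (sw f) = coeff (e j i) f := by
  have h1 : e i j = Finsupp.mapDomain (Equiv.swap (0 : Fin 2) 1) (e j i) := by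
    simp only [e, Finsupp.mapDomain_add, Finsupp.mapDomain_single]
    simp [add_comm]
  rw [h1]
  exact coeff_rename_mapDomain _ (Equiv.injective _) _ _

omit [CharZero k] in
theorem J_sw (f g : MvPolynomial (Fin 2) k) : J (sw f) (sw g) = - sw (J f g) := by
  have h1 : ∀ p : MvPolynomial (Fin 2) k, sw p = aeval ![X 1, X 0] p := by
    intro p
    have : (sw : MvPolynomial (Fin 2) k ≃ₐ[k] _).toAlgHom = aeval ![X 1, X 0] := by
      apply MvPolynomial.algHom_ext
      intro i
      fin_cases i <;> simp [sw]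
    exact DFunLike.congr_fun this p
  rw [h1, h1, h1, J_aeval]
  have h2 : J (![X 1, X 0] 0) (![X 1, X 0] 1 : MvPolynomial (Fin 2) k) = -1 := by
    simp only [Matrix.cons_val_zero, Matrix.cons_val_one]
    unfold J
    rw [pderiv_X_self, pderiv_X_self, pderiv_X_of_ne (by decide), pderiv_X_of_ne (by decide)]
    ring
  rw [h2]; ring

theorem line' {f g : MvPolynomial (Fin 2) k} {c : k} (hJ : J f g = C c) (hc : c ≠ 0)
    (hf : ∀ i, 2 ≤ i → coeff (e 0 i) f = 0) : Good f g := by
  apply Good.of_equiv sw
  apply line (c := -c) _ (neg_ne_zero.2 hc)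
  · intro i hi
    rw [coeff_sw]; exact hf i hi
  · rw [J_sw, hJ]
    simp [sw]

end Pool.Agent.H938R2.JC
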