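import Mathlib
import Pool.Agent.H938R2.JC.Line

set_option autoImplicit false

open MvPolynomial

namespace Pool.Agent.H938R2.JC

variable {k : Type*} [Field k]

/-- A polynomial all of whose critical points are roots is a power of a linear polynomial. -/
theorem pow_of_roots [CharZero k] (φ : Polynomial k) (hl : 2 ≤ φ.natDegree)
    (h : ∀ ρ : AlgebraicClosure k, Polynomial.aeval ρ (Polynomial.derivative φ) = 0 →
      Polynomial.aeval ρ φ = 0) :
    ∃ μ y : k, μ ≠ 0 ∧ φ = Polynomial.C μ * (Polynomial.X - Polynomial.C y) ^ φ.natDegree := by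
  classical
  set L := AlgebraicClosure k with hL
  set l := φ.natDegree with hldef
  set Φ := φ.map (algebraMap k L) with hΦ
  have hΦ0 : Φ ≠ 0 := by
    rw [hΦ, Ne, Polynomial.map_eq_zero]
    rintro rfl
    simp at hldef
    omega
  have hdeg : Φ.natDegree = l := Polynomial.natDegree_map _
  have hΦ' : Polynomial.derivative Φ ≠ 0 := by
    intro h0
    have := Polynomial.derivative_eq_zero.1 h0
    omega
  have hdeg' : (Polynomial.derivative Φ).natDegree = l - 1 := by
    rw [Polynomial.natDegree_derivative, hdeg]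
  have hroot : ∀ ρ ∈ (Polynomial.derivative Φ).roots.toFinset, Φ.IsRoot ρ := by
    intro ρ hρ
    rw [Multiset.mem_toFinset, Polynomial.mem_roots hΦ', Polynomial.IsRoot.def] at hρ
    have h1 : Polynomial.aeval ρ (Polynomial.derivative φ) = 0 := by
      rw [← hρ, hΦ, Polynomial.derivative_map, Polynomial.eval_map_algebraMap]
    have h2 := h ρ h1
    rw [Polynomial.IsRoot.def, hΦ, Polynomial.eval_map_algebraMap]
    exact h2
  have hcard : Multiset.card (Polynomial.derivative Φ).roots = l - 1 := by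
    rw [← hdeg']
    exact (Polynomial.splits_iff_card_roots.1 (IsAlgClosed.splits _))
  have hsum : ∑ ρ ∈ (Polynomial.derivative Φ).roots.toFinset,
      (Polynomial.derivative Φ).roots.count ρ = l - 1 := by
    rw [← hcard, Multiset.toFinset_sum_count_eq]
  have hmul : ∀ ρ ∈ (Polynomial.derivative Φ).roots.toFinset,
      Φ.rootMultiplicity ρ = (Polynomial.derivative Φ).roots.count ρ + 1 := by
    intro ρ hρ
    rw [Polynomial.count_roots, Polynomial.derivative_rootMultiplicity_of_root (hroot ρ hρ)]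
    have : 0 < Φ.rootMultiplicity ρ := (Polynomial.rootMultiplicity_pos hΦ0).2 (hroot ρ hρ)
    omega
  have hsum2 : ∑ ρ ∈ (Polynomial.derivative Φ).roots.toFinset, Φ.rootMultiplicity ρ ≤ l := by
    have h1 : ∑ ρ ∈ (Polynomial.derivative Φ).roots.toFinset, Φ.rootMultiplicity ρ ≤
        ∑ ρ ∈ Φ.roots.toFinset, Φ.rootMultiplicity ρ := by
      apply Finset.sum_le_sum_of_subset
      intro ρ hρ
      rw [Multiset.mem_toFinset, Polynomial.mem_roots hΦ0]
      exact hroot ρ hρ
    have h2 : ∑ ρ ∈ Φ.roots.toFinset, Φ.rootMultiplicity ρ = Multiset.card Φ.roots := by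
      rw [← Multiset.toFinset_sum_count_eq]
      apply Finset.sum_congr rfl
      intro ρ _
      rw [Polynomial.count_roots]
    have h3 := Polynomial.card_roots' Φ
    omega
  rw [Finset.sum_congr rfl hmul, Finset.sum_add_distrib, hsum] at hsum2
  simp only [Finset.sum_const, smul_eq_mul, mul_one] at hsum2
  have hone : (Polynomial.derivative Φ).roots.toFinset.card = 1 := by
    have h1 : (Polynomial.derivative Φ).roots.toFinset.card ≠ 0 := by
      intro h0
      rw [Finset.card_eq_zero, Multiset.toFinset_eq_empty] at h0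
      rw [h0] at hcard
      simp at hcard
      omega
    omega
  obtain ⟨ρ, hρ⟩ := Finset.card_eq_one.1 hone
  rw [hρ, Finset.sum_singleton] at hsum
  have hρm := hmul ρ (by rw [hρ]; simp)
  rw [hsum] at hρm
  have hρm' : Φ.rootMultiplicity ρ = l := by omega
  have hdvd := Polynomial.pow_rootMultiplicity_dvd Φ ρ
  rw [hρm'] at hdvd
  obtain ⟨q, hq⟩ := hdvd
  have hq0 : q ≠ 0 := by rintro rfl; exact hΦ0 (by rw [hq, mul_zero])
  have hqd : q.natDegree = 0 := by
    have h1 := congrArg Polynomial.natDegree hq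
    rw [Polynomial.natDegree_mul (pow_ne_zero _ (Polynomial.X_sub_C_ne_zero ρ)) hq0,
      Polynomial.natDegree_pow, Polynomial.natDegree_X_sub_C, hdeg] at h1
    omega
  rw [Polynomial.natDegree_eq_zero] at hqd
  obtain ⟨μ', hμ'⟩ := hqd
  have hΦeq : Φ = Polynomial.C μ' * (Polynomial.X - Polynomial.C ρ) ^ l := by
    rw [hq, ← hμ']; ring
  have hμlead : Φ.coeff l = μ' := by
    rw [hΦeq, Polynomial.coeff_C_mul]
    have h1 : ((Polynomial.X - Polynomial.C ρ) ^ l).coeff l = 1 := by
      have h2 := (Polynomial.monic_X_sub_C ρ).pow l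
      have h3 : ((Polynomial.X - Polynomial.C ρ) ^ l).natDegree = l := by
        rw [Polynomial.natDegree_pow, Polynomial.natDegree_X_sub_C, mul_one]
      have h4 := h2.coeff_natDegree
      rwa [h3] at h4
    rw [h1, mul_one]
  set μ := φ.coeff l with hμ
  have hμμ' : algebraMap k L μ = μ' := by rw [← hμlead, hΦ, Polynomial.coeff_map]
  have hμ0 : μ ≠ 0 := by
    rw [hμ, hldef]
    exact Polynomial.leadingCoeff_ne_zero.2 (by rintro rfl; simp at hldef; omega)
  have hμ'0 : μ' ≠ 0 := by rw [← hμμ']; exact (map_ne_zero _).2 hμ0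
  -- coefficient of X^(l-1)
  have hc1 : Φ.coeff (l - 1) = - (l : L) * μ' * ρ := by
    have h1 : (Polynomial.derivative^[l-1] Φ).coeff 0 = ((l - 1).factorial : L) * Φ.coeff (l - 1) := by
      rw [Polynomial.coeff_iterate_derivative, zero_add, Nat.descFactorial_self, nsmul_eq_mul]
    rw [hΦeq, sub_eq_add_neg, ← Polynomial.C_neg, Polynomial.coeff_C_mul,
      Polynomial.coeff_X_add_C_pow]
    have h2 : l - (l - 1) = 1 := by omega
    have h3 : l.choose (l - 1) = l := by
      rw [← Nat.choose_symm (by omega : l - 1 ≤ l), h2, Nat.choose_one_right]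
    rw [h2, h3, pow_one]
    ring
  set y := - φ.coeff (l - 1) / (l * μ) with hy
  have hlk : (l : k) ≠ 0 := by exact_mod_cast (by omega : l ≠ 0)
  have hlL : (l : L) ≠ 0 := by exact_mod_cast (by omega : l ≠ 0)
  have hyρ : algebraMap k L y = ρ := by
    rw [hy, map_div₀, map_neg, map_mul, map_natCast, hμμ']
    have h1 : algebraMap k L (φ.coeff (l - 1)) = Φ.coeff (l - 1) := by rw [hΦ, Polynomial.coeff_map]
    rw [h1, hc1]
    have h4 : (l : L) * μ' ≠ 0 := mul_ne_zero hlL hμ'0
    rw [div_eq_iff h4]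
    ring
  refine ⟨μ, y, hμ0, ?_⟩
  apply Polynomial.map_injective (algebraMap k L) (algebraMap k L).injective
  rw [← hΦ, hΦeq, Polynomial.map_mul, Polynomial.map_pow, Polynomial.map_sub, Polynomial.map_C,
    Polynomial.map_X, Polynomial.map_C, hμμ', hyρ]

/-- dehomogenization `x = 1`. -/
noncomputable def dh : MvPolynomial (Fin 2) k →ₐ[k] Polynomial k :=
  aeval ![1, Polynomial.X]

theorem dh_monomial (m : Fin 2 →₀ ℕ) (a : k) : dh (monomial m a) = Polynomial.monomial (m 1) a := by
  rw [dh, aeval_monomial, Finsupp.prod_fintype _ _ (by simp), Fin.prod_univ_two]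
  simp only [Matrix.cons_val_zero, Matrix.cons_val_one, one_pow, one_mul]
  rw [Polynomial.algebraMap_eq, Polynomial.C_mul_X_pow_eq_monomial]

theorem weight_eq (w : Fin 2 → ℕ) (m : Fin 2 →₀ ℕ) : Finsupp.weight w m = m 0 * w 0 + m 1 * w 1 := by
  rw [Finsupp.weight_apply, Finsupp.sum_fintype _ _ (by simp), Fin.sum_univ_two]
  simp

theorem dh_coeff {w : Fin 2 → ℕ} (hw0 : 0 < w 0) {D : ℕ} {h : MvPolynomial (Fin 2) k}
    (hh : IsWeightedHomogeneous w h D) (m : Fin 2 →₀ ℕ) (hm : m 0 * w 0 + m 1 * w 1 = D) :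
    (dh h).coeff (m 1) = coeff m h := by
  classical
  conv_lhs => rw [h.as_sum]
  rw [map_sum, Polynomial.finsetSum_coeff]
  simp only [dh_monomial, Polynomial.coeff_monomial]
  rw [Finset.sum_eq_single m]
  · simp
  · intro m' hm' hne
    rw [if_neg]
    intro h1
    apply hne
    have h2 := hh (mem_support_iff.1 hm')
    rw [weight_eq] at h2
    apply ext_iff'.2
    refine ⟨?_, h1⟩
    have : m' 0 * w 0 = m 0 * w 0 := by rw [h1] at h2; omega
    exact Nat.eq_of_mul_eq_mul_right hw0 this
  · intro h1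
    rw [mem_support_iff, not_not] at h1
    simp [h1]

theorem dh_coeff_exists {h : MvPolynomial (Fin 2) k} (j : ℕ) (hj : (dh h).coeff j ≠ 0) :
    ∃ i, coeff (e i j) h ≠ 0 := by
  classical
  by_contra hcon
  push Not at hcon
  apply hj
  conv_lhs => rw [h.as_sum]
  rw [map_sum, Polynomial.finsetSum_coeff]
  apply Finset.sum_eq_zero
  intro m hm
  rw [dh_monomial, Polynomial.coeff_monomial]
  split_ifs with h1
  · rw [eq_e m, h1]; exact hcon _
  · rfl

theorem eq_of_dh {w : Fin 2 → ℕ} (hw0 : 0 < w 0) {D : ℕ} {h h' : MvPolynomial (Fin 2) k}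
    (hh : IsWeightedHomogeneous w h D) (hh' : IsWeightedHomogeneous w h' D) (hd : dh h = dh h') :
    h = h' := by
  ext m
  by_cases hm : m 0 * w 0 + m 1 * w 1 = D
  · rw [← dh_coeff hw0 hh m hm, ← dh_coeff hw0 hh' m hm, hd]
  · rw [← weight_eq w m] at hm
    rw [hh.coeff_eq_zero m hm, hh'.coeff_eq_zero m hm]

theorem dh_deriv (h : MvPolynomial (Fin 2) k) : dh (pderiv 1 h) = Polynomial.derivative (dh h) := by
  have h1 := H922R2.deriv_aeval (k := k) (Polynomial.derivative' : Derivation k (Polynomial k) (Polynomial k))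
    ![1, Polynomial.X] h
  rw [Fin.sum_univ_two] at h1
  simp only [Polynomial.derivative'_apply, Matrix.cons_val_zero, Matrix.cons_val_one,
    Polynomial.derivative_X, Polynomial.derivative_one, mul_one, mul_zero, zero_add] at h1
  exact h1.symm

theorem aeval_dh {L : Type*} [Field L] [Algebra k L] (ρ : L) (h : MvPolynomial (Fin 2) k) :
    aeval (![1, ρ] : Fin 2 → L) h = Polynomial.aeval ρ (dh h) := by
  have : (aeval (![1, ρ] : Fin 2 → L) : MvPolynomial (Fin 2) k →ₐ[k] L) =
      (Polynomial.aeval ρ).comp dh := by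
    apply MvPolynomial.algHom_ext
    intro i
    fin_cases i <;> simp [dh]
  exact DFunLike.congr_fun this h

theorem aeval_scale {L : Type*} [Field L] [Algebra k L] {w : Fin 2 → ℕ} {D : ℕ}
    {h : MvPolynomial (Fin 2) k} (hh : IsWeightedHomogeneous w h D) (t a b : L) :
    aeval (![t ^ w 0 * a, t ^ w 1 * b] : Fin 2 → L) h = t ^ D * aeval (![a, b] : Fin 2 → L) h := by
  conv_lhs => rw [h.as_sum]
  conv_rhs => rw [h.as_sum]
  rw [map_sum, map_sum, Finset.mul_sum]
  apply Finset.sum_congr rfl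
  intro m hm
  have h2 := hh (mem_support_iff.1 hm)
  rw [weight_eq] at h2
  rw [aeval_monomial, aeval_monomial, Finsupp.prod_fintype _ _ (by simp),
    Finsupp.prod_fintype _ _ (by simp), Fin.prod_univ_two, Fin.prod_univ_two]
  simp only [Matrix.cons_val_zero, Matrix.cons_val_one]
  rw [← h2, mul_pow, mul_pow, ← pow_mul, ← pow_mul, pow_add, mul_comm (w 0), mul_comm (w 1)]
  ring

theorem aeval_wh {w : Fin 2 → ℕ} {D : ℕ} {h : MvPolynomial (Fin 2) k}
    (hh : IsWeightedHomogeneous w h D) (u : Fin 2 → MvPolynomial (Fin 2) k)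
    (hu : ∀ i, IsWeightedHomogeneous w (u i) (w i)) : IsWeightedHomogeneous w (aeval u h) D := by
  rw [h.as_sum, map_sum, ← mem_weightedHomogeneousSubmodule]
  apply Submodule.sum_mem
  intro m hm
  rw [mem_weightedHomogeneousSubmodule]
  have h2 := hh (mem_support_iff.1 hm)
  rw [weight_eq] at h2
  rw [aeval_monomial, Finsupp.prod_fintype _ _ (by simp), Fin.prod_univ_two, ← h2]
  have h3 : IsWeightedHomogeneous w (algebraMap k (MvPolynomial (Fin 2) k) (coeff m h)) 0 :=
    isWeightedHomogeneous_C w _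
  have h4 := ((hu 0).pow (m 0)).mul ((hu 1).pow (m 1))
  have h5 := h3.mul h4
  rw [zero_add, smul_eq_mul, smul_eq_mul] at h5
  exact h5

end Pool.Agent.H938R2.JC
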