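import Mathlib
import Pool.Agent.H938R2.JC.Pos

set_option autoImplicit false

open MvPolynomial

namespace Pool.Agent.H938R2.JC

variable {k : Type*} [Field k]

/-- triangular automorphism `y ↦ y + q(x)` where `q` only involves `x`. -/
noncomputable def triY (q : MvPolynomial (Fin 2) k)
    (hq : aeval ![X 0, X 1 + q] q = q) (hq' : aeval ![X 0, X 1 - q] q = q) :
    MvPolynomial (Fin 2) k ≃ₐ[k] MvPolynomial (Fin 2) k :=
  AlgEquiv.ofAlgHom (aeval ![X 0, X 1 + q]) (aeval ![X 0, X 1 - q])
    (by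
      apply MvPolynomial.algHom_ext
      intro i
      fin_cases i
      · simp
      · simp only [Fin.mk_one, AlgHom.coe_comp, Function.comp_apply, aeval_X,
          Matrix.cons_val_one, Matrix.cons_val_fin_one, map_sub, map_add, AlgHom.coe_id, id_eq, hq]
        ring)
    (by
      apply MvPolynomial.algHom_ext
      intro i
      fin_cases i
      · simp
      · simp only [Fin.mk_one, AlgHom.coe_comp, Function.comp_apply, aeval_X,
          Matrix.cons_val_one, Matrix.cons_val_fin_one, map_sub, map_add, AlgHom.coe_id, id_eq, hq']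
        ring)

/-- automorphism `x ↦ a⁻¹ (x - p(y))`. -/
noncomputable def triX (a : k) (ha : a ≠ 0) (p : MvPolynomial (Fin 2) k)
    (hp : aeval ![C a⁻¹ * (X 0 - p), X 1] p = p) (hp' : aeval ![C a * X 0 + p, X 1] p = p) :
    MvPolynomial (Fin 2) k ≃ₐ[k] MvPolynomial (Fin 2) k :=
  AlgEquiv.ofAlgHom (aeval ![C a⁻¹ * (X 0 - p), X 1]) (aeval ![C a * X 0 + p, X 1])
    (by
      apply MvPolynomial.algHom_ext
      intro i
      fin_cases i
      · simp only [Fin.zero_eta, AlgHom.coe_comp, Function.comp_apply, aeval_X,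
          Matrix.cons_val_zero, map_add, map_mul, algHom_C, AlgHom.coe_id, id_eq, hp,
          MvPolynomial.algebraMap_eq]
        rw [← mul_assoc, ← C_mul, mul_inv_cancel₀ ha, C_1, one_mul]
        ring
      · simp)
    (by
      apply MvPolynomial.algHom_ext
      intro i
      fin_cases i
      · simp only [Fin.zero_eta, AlgHom.coe_comp, Function.comp_apply, aeval_X,
          Matrix.cons_val_zero, map_sub, map_mul, algHom_C, AlgHom.coe_id, id_eq, hp',
          MvPolynomial.algebraMap_eq]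
        rw [add_sub_cancel_right, ← mul_assoc, ← C_mul, inv_mul_cancel₀ ha, C_1, one_mul]
      · simp)

theorem aeval_only_X1 (b : MvPolynomial (Fin 2) k) (hb : ∀ i j, coeff (e i j) b ≠ 0 → i = 0)
    (u : MvPolynomial (Fin 2) k) : aeval ![u, X 1] b = b := by
  conv_lhs => rw [b.as_sum]
  conv_rhs => rw [b.as_sum]
  rw [map_sum]
  apply Finset.sum_congr rfl
  intro m hm
  rw [mem_support_iff] at hm
  have h0 : m 0 = 0 := hb (m 0) (m 1) (by rw [← eq_e]; exact hm)
  rw [aeval_monomial, Finsupp.prod_fintype _ _ (by simp), Fin.prod_univ_two, h0]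
  simp only [Matrix.cons_val_zero, Matrix.cons_val_one, pow_zero, one_mul]
  rw [MvPolynomial.algebraMap_eq, C_mul_X_pow_eq_monomial]
  exact congrArg (fun u => monomial u (coeff m b)) (ext_iff'.2 ⟨by simp [h0], by simp⟩)

variable [CharZero k]

theorem main_pos {f g : MvPolynomial (Fin 2) k} {c : k} (hJ : J f g = C c) (hc : c ≠ 0)
    {w : Fin 2 → ℕ} (hw0 : 0 < w 0) (hw1 : 0 < w 1) {D : ℕ} (hD : w 0 < D)
    {h : MvPolynomial (Fin 2) k} (hh : IsWeightedHomogeneous w h D) (c0 : k)
    (hf : f = C c0 + X 0 + h) : Good f g := by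
  by_contra hN
  have hcf : ∀ i j, 2 ≤ i + j → coeff (e i j) f = coeff (e i j) h := by
    intro i j hij
    rw [hf, coeff_add, coeff_add, coeff_C, if_neg, coeff_X', if_neg, zero_add, zero_add]
    · intro h1
      have h2 : (1 : ℕ) = i := by simpa using DFunLike.congr_fun h1 0
      have h3 : (0 : ℕ) = j := by simpa using DFunLike.congr_fun h1 1
      omega
    · intro h1
      have h2 : (0 : ℕ) = i := by simpa using DFunLike.congr_fun h1 0
      have h3 : (0 : ℕ) = j := by simpa using DFunLike.congr_fun h1 1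
      omega
  obtain ⟨kk, hkk, hν⟩ : ∃ i, 2 ≤ i ∧ coeff (e i 0) f ≠ 0 := by
    by_contra hcon
    push Not at hcon
    exact hN (line hJ hc hcon)
  obtain ⟨l, hl, hμ⟩ : ∃ i, 2 ≤ i ∧ coeff (e 0 i) f ≠ 0 := by
    by_contra hcon
    push Not at hcon
    exact hN (line' hJ hc hcon)
  rw [hcf _ _ (by omega)] at hν hμ
  have hkD : kk * w 0 = D := by
    have := hh hν; rw [weight_eq] at this; simpa using this
  have hlD : l * w 1 = D := by
    have := hh hμ; rw [weight_eq] at this; simpa using this
  set φ := dh h with hφ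
  have hφl : φ.coeff l = coeff (e 0 l) h := by
    have := dh_coeff hw0 hh (e 0 l) (by simpa using hlD)
    simpa using this
  have hφ0 : φ.coeff 0 = coeff (e kk 0) h := by
    have := dh_coeff hw0 hh (e kk 0) (by simpa using hkD)
    simpa using this
  have hdeg : φ.natDegree = l := by
    apply le_antisymm
    · rw [Polynomial.natDegree_le_iff_coeff_eq_zero]
      intro j hj
      by_contra hne
      obtain ⟨i, hi⟩ := dh_coeff_exists j hne
      have := hh hi
      rw [weight_eq] at this
      simp only [e_zero, e_one] at this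
      have h2 : l * w 1 < j * w 1 := Nat.mul_lt_mul_of_pos_right hj hw1
      omega
    · exact Polynomial.le_natDegree_of_ne_zero (by rw [hφl]; exact hμ)
  have hw1D : w 1 ≤ D := by
    rw [← hlD]; exact Nat.le_mul_of_pos_left _ (by omega)
  have hh0 : IsWeightedHomogeneous w (pderiv 0 h) (D - w 0) := hh.pderiv (by omega)
  have hh1 : IsWeightedHomogeneous w (pderiv 1 h) (D - w 1) := hh.pderiv (by omega)
  have hroots : ∀ ρ : AlgebraicClosure k, Polynomial.aeval ρ (Polynomial.derivative φ) = 0 →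
      Polynomial.aeval ρ φ = 0 := by
    intro ρ hρ
    by_contra hne
    have h1 : aeval (![1, ρ] : Fin 2 → AlgebraicClosure k) (pderiv 1 h) = 0 := by
      rw [aeval_dh, dh_deriv]; exact hρ
    have hE := congrArg (aeval (![1, ρ] : Fin 2 → AlgebraicClosure k)) hh.sum_weight_X_mul_pderiv
    rw [Fin.sum_univ_two, map_add, map_nsmul, map_nsmul, map_nsmul, map_mul, map_mul, h1,
      mul_zero, smul_zero, add_zero, aeval_X, aeval_dh ρ h] at hE
    simp only [Matrix.cons_val_zero, one_mul] at hE
    set A := aeval (![1, ρ] : Fin 2 → AlgebraicClosure k) (pderiv 0 h) with hA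
    have hA0 : A ≠ 0 := by
      intro h0
      rw [h0, smul_zero] at hE
      have h3 := hE.symm
      rw [nsmul_eq_mul, mul_eq_zero] at h3
      rcases h3 with h3 | h3
      · have : (D : AlgebraicClosure k) ≠ 0 := by exact_mod_cast (by omega : D ≠ 0)
        exact this h3
      · exact hne h3
    obtain ⟨t, ht⟩ := IsAlgClosed.exists_pow_nat_eq (-A⁻¹) (by omega : 0 < D - w 0)
    have hpt : ∀ p : MvPolynomial (Fin 2) k,
        aeval (![t ^ w 0 * 1, t ^ w 1 * ρ] : Fin 2 → AlgebraicClosure k) p = 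
        aeval (![t ^ w 0 * 1, t ^ w 1 * ρ] : Fin 2 → AlgebraicClosure k) p := fun p => rfl
    have hp0 : aeval (![t ^ w 0 * 1, t ^ w 1 * ρ] : Fin 2 → AlgebraicClosure k) (pderiv 0 f) = 0 := by
      rw [hf, map_add, map_add, map_add, map_add, pderiv_C, map_zero, pderiv_X_self, map_one,
        aeval_scale hh0, ht, ← hA, neg_mul, inv_mul_cancel₀ hA0]
      ring
    have hp1 : aeval (![t ^ w 0 * 1, t ^ w 1 * ρ] : Fin 2 → AlgebraicClosure k) (pderiv 1 f) = 0 := by
      rw [hf, map_add, map_add, map_add, map_add, pderiv_C, map_zero, pderiv_X_of_ne (by decide), map_zero,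
        aeval_scale hh1, h1]
      ring
    have hJ2 := congrArg (aeval (![t ^ w 0 * 1, t ^ w 1 * ρ] : Fin 2 → AlgebraicClosure k)) hJ
    unfold J at hJ2
    rw [map_sub, map_mul, map_mul, hp0, hp1, zero_mul, zero_mul, sub_zero, aeval_C] at hJ2
    exact hc ((map_eq_zero _).1 hJ2.symm)
  obtain ⟨μ, y, hμ0, hφeq⟩ := pow_of_roots φ (by omega) hroots
  rw [hdeg] at hφeq
  have hy0 : y ≠ 0 := by
    rintro rfl
    apply hν
    rw [← hφ0, hφeq]
    simp
    intro h; omega
  have hcl1 : φ.coeff (l - 1) ≠ 0 := by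
    rw [hφeq, sub_eq_add_neg, ← Polynomial.C_neg, Polynomial.coeff_C_mul,
      Polynomial.coeff_X_add_C_pow]
    have h2 : l - (l - 1) = 1 := by omega
    have h3 : l.choose (l - 1) = l := by
      rw [← Nat.choose_symm (by omega : l - 1 ≤ l), h2, Nat.choose_one_right]
    rw [h2, h3, pow_one]
    have : (l : k) ≠ 0 := by exact_mod_cast (by omega : l ≠ 0)
    exact mul_ne_zero hμ0 (mul_ne_zero (neg_ne_zero.2 hy0) this)
  obtain ⟨r, hr⟩ := dh_coeff_exists _ hcl1
  have hrw : r * w 0 = w 1 := by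
    have := hh hr
    rw [weight_eq] at this
    simp only [e_zero, e_one] at this
    have h2 : l * w 1 = (l - 1) * w 1 + w 1 := by
      have : l = (l - 1) + 1 := by omega
      conv_lhs => rw [this]
      rw [add_mul, one_mul]
    omega
  have hheq : h = C μ * (X 1 - C y * X 0 ^ r) ^ l := by
    apply eq_of_dh hw0 hh
    · have h1 : IsWeightedHomogeneous w (X 1 - C y * X 0 ^ r : MvPolynomial (Fin 2) k) (w 1) := by
        apply IsWeightedHomogeneous.sub
        · exact isWeightedHomogeneous_X k w 1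
        · have h2 := (isWeightedHomogeneous_C w y).mul ((isWeightedHomogeneous_X k w 0).pow r)
          rw [zero_add, smul_eq_mul, hrw] at h2
          exact h2
      have h3 := (isWeightedHomogeneous_C w μ).mul (h1.pow l)
      rw [zero_add, smul_eq_mul, hlD] at h3
      exact h3
    · rw [← hφ, hφeq]
      simp only [dh, map_mul, map_pow, map_sub, aeval_X, Matrix.cons_val_zero, Matrix.cons_val_one,
        one_pow, mul_one, algHom_C, Polynomial.algebraMap_eq]
  -- the change of variables
  have hqa : ∀ s : MvPolynomial (Fin 2) k, aeval ![X 0, s] (C y * X 0 ^ r : MvPolynomial (Fin 2) k) =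
      C y * X 0 ^ r := by
    intro s
    simp only [map_mul, map_pow, aeval_X, Matrix.cons_val_zero, algHom_C, MvPolynomial.algebraMap_eq]
  set ψ := triY (C y * X 0 ^ r : MvPolynomial (Fin 2) k) (hqa _) (hqa _) with hψ
  have hψa : ∀ p, ψ p = aeval ![X 0, X 1 + C y * X 0 ^ r] p := fun p => rfl
  have hψJ : J (ψ f) (ψ g) = C c := by
    rw [hψa, hψa, J_aeval, hJ]
    have h2 : J ((![X 0, X 1 + C y * X 0 ^ r] : Fin 2 → MvPolynomial (Fin 2) k) 0)
        ((![X 0, X 1 + C y * X 0 ^ r] : Fin 2 → MvPolynomial (Fin 2) k) 1) = 1 := by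
      simp only [Matrix.cons_val_zero, Matrix.cons_val_one]
      unfold J
      rw [map_add, map_add, pderiv_X_self, pderiv_X_self, pderiv_X_of_ne (by decide),
        pderiv_X_of_ne (by decide)]
      have : pderiv 1 (C y * X 0 ^ r : MvPolynomial (Fin 2) k) = 0 := by
        simp [Derivation.leibniz, pderiv_C]
      rw [this]; ring
    rw [h2, mul_one, algHom_C]; rfl
  apply hN
  apply Good.of_equiv ψ
  apply line hψJ hc
  intro i hi
  have h4 : ψ f = C c0 + X 0 + C μ * X 1 ^ l := by
    rw [hψa, hf, hheq]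
    simp only [map_add, map_mul, map_pow, map_sub, aeval_X, Matrix.cons_val_zero,
      Matrix.cons_val_one, algHom_C, MvPolynomial.algebraMap_eq]
    ring
  rw [h4, coeff_add, coeff_add, coeff_C, if_neg, coeff_X', if_neg, C_mul_X_pow_eq_monomial,
    coeff_monomial, if_neg]
  · simp
  · intro h1
    have h3 : (l : ℕ) = 0 := by simpa using DFunLike.congr_fun h1 1
    omega
  · intro h1
    have h2 : (1 : ℕ) = i := by simpa using DFunLike.congr_fun h1 0
    omega
  · intro h1
    have h2 : (0 : ℕ) = i := by simpa using DFunLike.congr_fun h1 0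
    omega

/-- Natural weights; the linear term in `x` is present. -/
theorem two_nat {f g : MvPolynomial (Fin 2) k} {c : k} (hJ : J f g = C c) (hc : c ≠ 0)
    {w : Fin 2 → ℕ} (hw0 : 0 < w 0) (hw1 : 0 < w 1) {D : ℕ} (hD : w 0 < D)
    (hx : coeff (e 1 0) f ≠ 0)
    (hf : ∀ m, coeff m f ≠ 0 → m ≠ 0 → m 0 * w 0 + m 1 * w 1 = w 0 ∨ m 0 * w 0 + m 1 * w 1 = D) :
    Good f g := by
  classical
  set h := weightedHomogeneousComponent w D f with hh
  set p := weightedHomogeneousComponent w (w 0) f - C (coeff (e 1 0) f) * X 0 with hp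
  set α := coeff (e 1 0) f with hα
  have hhh : IsWeightedHomogeneous w h D := weightedHomogeneousComponent_isWeightedHomogeneous D f
  have hXe : ∀ a : k, (C a * X 0 : MvPolynomial (Fin 2) k) = monomial (e 1 0) a := by
    intro a; rw [X, C_mul_monomial]; simp [e]
  have hpw : IsWeightedHomogeneous w p (w 0) := by
    rw [hp]
    apply IsWeightedHomogeneous.sub
    · exact weightedHomogeneousComponent_isWeightedHomogeneous (w 0) f
    · have h2 := (isWeightedHomogeneous_C w α).mul (isWeightedHomogeneous_X k w 0)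
      rw [zero_add] at h2
      exact h2
  have hp0 : ∀ i j, coeff (e i j) p ≠ 0 → i = 0 := by
    intro i j hij
    have h1 := hpw hij
    rw [weight_eq] at h1
    simp only [e_zero, e_one] at h1
    by_contra hi
    have h2 : i = 1 := by
      by_contra hi1
      have : 2 * w 0 ≤ i * w 0 := Nat.mul_le_mul_right _ (by omega)
      omega
    subst h2
    have h3 : j = 0 := by
      rcases Nat.eq_zero_or_pos j with h | h
      · exact h
      · have : 0 < j * w 1 := Nat.mul_pos h hw1
        omega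
    subst h3
    apply hij
    rw [hp, coeff_sub, coeff_weightedHomogeneousComponent, weight_eq, if_pos (by simp), hXe,
      coeff_monomial, if_pos rfl, sub_self]
  have hfeq : f = C (coeff 0 f) + (C α * X 0 + p) + h := by
    ext m
    rw [hp, add_sub_cancel, coeff_add, coeff_add, hh, coeff_weightedHomogeneousComponent,
      coeff_weightedHomogeneousComponent, coeff_C, weight_eq]
    by_cases hm : m = 0
    · subst hm
      simp only [Finsupp.coe_zero, Pi.zero_apply, zero_mul, add_zero, if_true]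
      rw [if_neg (by omega), if_neg (by omega)]
      simp
    · rw [if_neg (Ne.symm hm), zero_add]
      by_cases hcm : coeff m f = 0
      · simp [hcm]
      · rcases hf m hcm hm with h1 | h1
        · rw [if_pos h1, if_neg (by omega), add_zero]
        · rw [if_neg (by omega), if_pos h1, zero_add]
  set ψ := triX α hx p (aeval_only_X1 p hp0 _) (aeval_only_X1 p hp0 _) with hψ
  have hψa : ∀ q, ψ q = aeval ![C α⁻¹ * (X 0 - p), X 1] q := fun q => rfl
  have hpd : pderiv 0 p = 0 := by
    ext m
    rw [coeff_pderiv, coeff_zero]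
    by_cases h0 : coeff (m + Finsupp.single 0 1) p = 0
    · rw [h0, zero_mul]
    · exfalso
      have h1 := hp0 _ _ (by rw [← eq_e]; exact h0)
      simp at h1
  have hψJ : J (ψ f) (ψ g) = C (c * α⁻¹) := by
    rw [hψa, hψa, J_aeval, hJ]
    have h2 : J ((![C α⁻¹ * (X 0 - p), X 1] : Fin 2 → MvPolynomial (Fin 2) k) 0)
        ((![C α⁻¹ * (X 0 - p), X 1] : Fin 2 → MvPolynomial (Fin 2) k) 1) = C α⁻¹ := by
      simp only [Matrix.cons_val_zero, Matrix.cons_val_one]
      unfold J
      rw [pderiv_X_self, pderiv_X_of_ne (by decide)]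
      simp only [Derivation.leibniz, pderiv_C, smul_eq_mul, map_sub, pderiv_X_self, hpd]
      ring
    rw [h2, algHom_C, C_mul]; rfl
  apply Good.of_equiv ψ
  apply main_pos hψJ (mul_ne_zero hc (inv_ne_zero hx)) hw0 hw1 hD (h := ψ h) _ (coeff 0 f)
  · conv_lhs => rw [hfeq]
    rw [map_add, map_add, map_add, map_mul]
    have h1 : ψ p = p := aeval_only_X1 p hp0 _
    have h2 : ψ (X 0) = C α⁻¹ * (X 0 - p) := by rw [hψa, aeval_X]; rfl
    have h3 : ∀ a : k, ψ (C a) = C a := by intro a; rw [hψa, algHom_C]; rfl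
    rw [h1, h2, h3, h3, ← mul_assoc, ← C_mul, mul_inv_cancel₀ hx, C_1]
    ring
  · rw [hψa]
    apply aeval_wh hhh
    intro i
    fin_cases i
    · have h2 := (isWeightedHomogeneous_C w α⁻¹).mul ((isWeightedHomogeneous_X k w 0).sub hpw)
      rw [zero_add] at h2
      exact h2
    · exact isWeightedHomogeneous_X k w 1

theorem two_int_pos {f g : MvPolynomial (Fin 2) k} {c : k} (hJ : J f g = C c) (hc : c ≠ 0)
    {w0 w1 : ℤ} (hw0 : 0 < w0) (a b : ℤ) (hx : coeff (e 1 0) f ≠ 0)
    (hf : ∀ m, coeff m f ≠ 0 → m ≠ 0 → w0 * m 0 + w1 * m 1 = a ∨ w0 * m 0 + w1 * m 1 = b) :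
    Good f g := by
  by_contra hN
  obtain ⟨kk, hkk, hν⟩ : ∃ i, 2 ≤ i ∧ coeff (e i 0) f ≠ 0 := by
    by_contra hcon
    push Not at hcon
    exact hN (line hJ hc hcon)
  obtain ⟨l, hl, hμ⟩ : ∃ i, 2 ≤ i ∧ coeff (e 0 i) f ≠ 0 := by
    by_contra hcon
    push Not at hcon
    exact hN (line' hJ hc hcon)
  have hne : ∀ i j, 1 ≤ i + j → e i j ≠ 0 := by
    intro i j hij h0
    have h1 : i = 0 := by simpa using DFunLike.congr_fun h0 0
    have h2 : j = 0 := by simpa using DFunLike.congr_fun h0 1
    omega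
  have h1 := hf _ hx (hne _ _ (by omega))
  have h2 := hf _ hν (hne _ _ (by omega))
  have h3 := hf _ hμ (hne _ _ (by omega))
  simp only [e_zero, e_one, Nat.cast_one, Nat.cast_zero, mul_one, mul_zero, add_zero, zero_add] at h1 h2 h3
  have h4 : w0 < w0 * kk := by
    have : (2 : ℤ) ≤ kk := by exact_mod_cast hkk
    nlinarith
  have hab : (a = w0 ∧ b = w0 * kk) ∨ (b = w0 ∧ a = w0 * kk) := by
    rcases h1 with h1 | h1 <;> rcases h2 with h2 | h2 <;> omega
  have hw1 : 0 < w1 := by
    have hlpos : (0 : ℤ) < l := by exact_mod_cast (by omega : 0 < l)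
    have h5 : 0 < w1 * l := by
      rcases hab with ⟨ha, hb⟩ | ⟨hb, ha⟩ <;> rcases h3 with h3 | h3 <;> omega
    exact pos_of_mul_pos_left h5 hlpos.le
  obtain ⟨W0, rfl⟩ := Int.eq_ofNat_of_zero_le hw0.le
  obtain ⟨W1, rfl⟩ := Int.eq_ofNat_of_zero_le hw1.le
  apply hN
  have hW0 : 0 < W0 := by exact_mod_cast hw0
  have hW1 : 0 < W1 := by exact_mod_cast hw1
  apply two_nat hJ hc (w := ![W0, W1]) hW0 hW1 (D := kk * W0) _ hx
  · intro m hm hm0
    have h6 := hf m hm hm0
    have h7 : ((W0 : ℤ) * m 0 + W1 * m 1 = W0) ∨ ((W0 : ℤ) * m 0 + W1 * m 1 = W0 * kk) := by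
      rcases hab with ⟨ha, hb⟩ | ⟨hb, ha⟩ <;> rcases h6 with h6 | h6 <;> omega
    simp only [Matrix.cons_val_zero, Matrix.cons_val_one]
    rcases h7 with h7 | h7
    · left
      have : W0 * m 0 + W1 * m 1 = W0 := by exact_mod_cast h7
      rw [mul_comm, mul_comm (m 1)]; exact this
    · right
      have : W0 * m 0 + W1 * m 1 = W0 * kk := by exact_mod_cast h7
      rw [mul_comm, mul_comm (m 1), this, mul_comm]
  · simp only [Matrix.cons_val_zero]
    have : (W0 : ℤ) < kk * W0 := by rw [mul_comm]; exact h4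
    exact_mod_cast this

theorem two_int {f g : MvPolynomial (Fin 2) k} {c : k} (hJ : J f g = C c) (hc : c ≠ 0)
    {w0 w1 : ℤ} (hw : w0 ≠ 0 ∨ w1 ≠ 0) (a b : ℤ) (hx : coeff (e 1 0) f ≠ 0)
    (hf : ∀ m, coeff m f ≠ 0 → m ≠ 0 → w0 * m 0 + w1 * m 1 = a ∨ w0 * m 0 + w1 * m 1 = b) :
    Good f g := by
  rcases lt_trichotomy w0 0 with h0 | h0 | h0
  · apply two_int_pos hJ hc (w0 := -w0) (w1 := -w1) (by omega) (-a) (-b) hx
    intro m hm hm0
    have h1 := hf m hm hm0
    have h2 : -w0 * m 0 + -w1 * m 1 = -(w0 * m 0 + w1 * m 1) := by ring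
    rw [h2]
    omega
  · by_contra hN
    subst h0
    have hw1 : w1 ≠ 0 := by tauto
    obtain ⟨kk, hkk, hν⟩ : ∃ i, 2 ≤ i ∧ coeff (e i 0) f ≠ 0 := by
      by_contra hcon
      push Not at hcon
      exact hN (line hJ hc hcon)
    obtain ⟨l, hl, hμ⟩ : ∃ i, 2 ≤ i ∧ coeff (e 0 i) f ≠ 0 := by
      by_contra hcon
      push Not at hcon
      exact hN (line' hJ hc hcon)
    have hne : ∀ i j, 1 ≤ i + j → e i j ≠ 0 := by
      intro i j hij h0
      have h1 : i = 0 := by simpa using DFunLike.congr_fun h0 0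
      have h2 : j = 0 := by simpa using DFunLike.congr_fun h0 1
      omega
    have h1 := hf _ hx (hne _ _ (by omega))
    have h3 := hf _ hμ (hne _ _ (by omega))
    simp only [e_zero, e_one, Nat.cast_one, Nat.cast_zero, mul_one, mul_zero, add_zero, zero_add,
      zero_mul] at h1 h3
    have hf1 : ∀ i, coeff (e i 1) f = 0 := by
      intro i
      by_contra hi
      have h6 := hf _ hi (hne _ _ (by omega))
      simp only [e_zero, e_one, Nat.cast_one, mul_one, zero_mul, zero_add] at h6
      have hl' : (2 : ℤ) ≤ l := by exact_mod_cast hl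
      have h7 : w1 * l ≠ w1 := by
        intro h7
        have : w1 * (l - 1) = 0 := by linarith
        rcases mul_eq_zero.1 this with h | h
        · exact hw1 h
        · omega
      have h8 : w1 * l ≠ 0 := mul_ne_zero hw1 (by omega)
      omega
    have hev1 : ev (pderiv 1 f) = 0 := by
      ext i
      rw [ev_coeff, coeff_pderiv]
      have h2 : e i 0 + Finsupp.single 1 1 = e i 1 := by simp [e]
      rw [h2, hf1, zero_mul, Polynomial.coeff_zero]
    have h4 := congrArg ev hJ
    rw [ev_J, hev1, zero_mul, sub_zero] at h4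
    have h5 : ev (C c : MvPolynomial (Fin 2) k) = Polynomial.C c := by simp [ev]
    rw [h5] at h4
    have h6 : IsUnit (Polynomial.derivative (ev f)) := by
      apply isUnit_of_mul_isUnit_left (y := ev (pderiv 1 g))
      rw [h4, Polynomial.isUnit_C, isUnit_iff_ne_zero]
      exact hc
    obtain ⟨d, hd, hd2⟩ := Polynomial.isUnit_iff.1 h6
    have h7 := congrArg (fun q => Polynomial.coeff q (kk - 1)) hd2
    simp only [Polynomial.coeff_C, Polynomial.coeff_derivative] at h7
    rw [if_neg (by omega), show kk - 1 + 1 = kk by omega, ev_coeff] at h7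
    rcases mul_eq_zero.1 h7.symm with h8 | h8
    · exact hν h8
    · have : ((kk - 1 : ℕ) : k) + 1 = (kk : k) := by
        rw [← Nat.cast_succ]; congr 1; omega
      rw [this] at h8
      have : (kk : k) ≠ 0 := by exact_mod_cast (by omega : kk ≠ 0)
      exact this h8
  · exact two_int_pos hJ hc h0 a b hx hf

/-- **Two pieces.** -/
theorem two_pieces {f g : MvPolynomial (Fin 2) k} {c : k} (hJ : J f g = C c) (hc : c ≠ 0)
    {w0 w1 : ℤ} (hw : w0 ≠ 0 ∨ w1 ≠ 0) (a b : ℤ)
    (hf : ∀ m, coeff m f ≠ 0 → m ≠ 0 → w0 * m 0 + w1 * m 1 = a ∨ w0 * m 0 + w1 * m 1 = b) :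
    Good f g := by
  by_cases hx : coeff (e 1 0) f = 0
  · by_cases hy : coeff (e 0 1) f = 0
    · exfalso
      have h1 := coeff_XXJ f g (e 1 1)
      rw [hJ, coeff_XX_C, if_pos rfl] at h1
      apply hc
      rw [h1]
      apply Finset.sum_eq_zero
      intro x hx'
      rw [Finset.HasAntidiagonal.mem_antidiagonal] at hx'
      have h0 : x.1 0 + x.2 0 = 1 := by simpa using DFunLike.congr_fun hx' 0
      have h2 : x.1 1 + x.2 1 = 1 := by simpa using DFunLike.congr_fun hx' 1
      have h3 : x.1 = e (x.1 0) (x.1 1) := eq_e _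
      have h4 : x.1 0 = 0 ∨ x.1 0 = 1 := by omega
      have h5 : x.1 1 = 0 ∨ x.1 1 = 1 := by omega
      rcases h4 with h4 | h4 <;> rcases h5 with h5 | h5
      · rw [h4, h5]; simp
      · rw [h3, h4, h5, hy]; simp
      · rw [h3, h4, h5, hx]; simp
      · have h6 : x.2 0 = 0 := by omega
        have h7 : x.2 1 = 0 := by omega
        rw [h4, h5, h6, h7]; simp
    · apply Good.of_equiv sw
      apply two_int (c := -c) _ (neg_ne_zero.2 hc) (w0 := w1) (w1 := w0) hw.symm a b
      · rw [coeff_sw]; exact hy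
      · intro m hm hm0
        rw [eq_e m, coeff_sw] at hm
        have h1 := hf _ hm (by
          intro h0
          apply hm0
          apply ext_iff'.2
          have h2 : m 1 = 0 := by simpa using DFunLike.congr_fun h0 0
          have h3 : m 0 = 0 := by simpa using DFunLike.congr_fun h0 1
          exact ⟨by simp [h3], by simp [h2]⟩)
        simp only [e_zero, e_one] at h1
        rw [add_comm]; exact h1
      · rw [J_sw, hJ]; simp [sw]
  · exact two_int hJ hc hw a b hx hf

end Pool.Agent.H938R2.JC
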